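import Pool.Agent.Lib.MP_db9bd2_nt.Final

/-! Question Q2: integrality of `a_n` for the Chudnovsky series. -/

namespace Pool.Agent.Results.MP_db9bd2_nt.Integrality

open Pool.Agent.Lib.MP_db9bd2_nt

theorem result (n : ℕ) (hn : 2 ≤ n) (a : ℚ)
    (ha : a = (∑ k ∈ Finset.range n, (545140134 * (k : ℚ) + 13591409) *
        (((6 * k).factorial : ℚ) / (((3 * k).factorial : ℚ) * (k.factorial : ℚ) ^ 3)) *
        (-(640320 : ℚ) ^ 3) ^ (n - 1 - k)) /
      (2 * (n : ℚ) * (2 * (n : ℚ) + 1) * ((2 * n).choose n : ℚ))) :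
    ((¬ ∃ e : ℕ, 2 * n + 1 = 3 ^ e) → ∃ z : ℤ, a = z) ∧
    ((∃ e : ℕ, 2 * n + 1 = 3 ^ e) → ∃ z : ℤ, 3 * a = z ∧ ¬ (3 : ℤ) ∣ z) := by
  have hd : (dd n : ℚ) ≠ 0 := by
    obtain ⟨k, rfl⟩ : ∃ k, n = k + 1 := ⟨n - 1, by omega⟩
    exact_mod_cast (dd_pos k).ne'
  have e : a = (SS n : ℚ) / (dd n : ℚ) := by
    rw [ha]
    unfold SS TT dd
    rw [Int.cast_sum]
    simp only [Int.cast_mul, Int.cast_add, Int.cast_pow, Int.cast_neg, Int.cast_ofNat,
      Int.cast_natCast, Nat.cast_mul, Nat.cast_add, Nat.cast_ofNat, Nat.cast_one]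
    refine congrArg (· / _) (Finset.sum_congr rfl fun k _ => ?_)
    have h1 : (cc k : ℚ) * (((3 * k).factorial : ℚ) * (k.factorial : ℚ) ^ 3) =
        ((6 * k).factorial : ℚ) := by exact_mod_cast congrArg (Nat.cast : ℕ → ℚ) (cc_mul k)
    rw [← h1, mul_div_cancel_right₀ _ (by positivity)]
  constructor
  · intro h
    obtain ⟨z, hz⟩ := dd_dvd n hn h
    refine ⟨z, ?_⟩
    rw [e, hz, div_eq_iff hd]; push_cast; ring
  · intro h
    obtain ⟨z, hz, h3⟩ := dd_dvd_three n hn h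
    refine ⟨z, ?_, h3⟩
    have := congrArg (Int.cast : ℤ → ℚ) hz
    push_cast at this
    rw [e, ← mul_div_assoc, div_eq_iff hd, this, mul_comm]

end Pool.Agent.Results.MP_db9bd2_nt.Integrality
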