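import Pool.Agent.Lib.MP_db9bd2_nt.SupSmall

/-! Question Q1: supercongruences for the truncated Chudnovsky series. -/

namespace Pool.Agent.Results.MP_db9bd2_nt.Supercongruence

open Pool.Agent.Lib.MP_db9bd2_nt Pool.Agent.Lib.MP_db9bd2_nt.Sup

theorem result (p : ℕ) [Fact p.Prime] [Fact (Nat.Prime 163)] (h5 : 5 < p) (h23 : p ≠ 23)
    (h29 : p ≠ 29) (S T : ℚ)
    (hS : S = ∑ k ∈ Finset.range p,
        (((6 * k).factorial : ℚ) / (((3 * k).factorial : ℚ) * (k.factorial : ℚ) ^ 3)) /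
        (-(640320 : ℚ) ^ 3) ^ k)
    (hT : T = ∑ k ∈ Finset.range p, (545140134 * (k : ℚ) + 13591409) *
        (((6 * k).factorial : ℚ) / (((3 * k).factorial : ℚ) * (k.factorial : ℚ) ^ 3)) /
        (-(640320 : ℚ) ^ 3) ^ k) :
    (p ≠ 163 →
      (legendreSym 163 p = 1 → ∀ x y : ℕ, 0 < x → 0 < y → 4 * p = x ^ 2 + 163 * y ^ 2 →
        (p : ℤ) ^ 2 ∣ (S - (legendreSym p (-10005) : ℚ) * ((x : ℚ) ^ 2 - 2 * (p : ℚ))).num) ∧
      (legendreSym 163 p = -1 → (p : ℤ) ^ 2 ∣ S.num)) ∧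
    (p : ℤ) ^ 3 ∣ (T - 13591409 * (p : ℚ) * (legendreSym p (-10005) : ℚ)).num := by
  have hp : p.Prime := Fact.out
  obtain ⟨c1, c2, c3⟩ := cong_all p h5 h23 h29
  rw [leg_163 p (by omega)] at c1 c2
  have eS : S * (-(640320 : ℚ) ^ 3) ^ (p - 1) = (S0 p : ℚ) := by
    have h := sum_mul_pow p fun _ => 1
    simp only [one_mul] at h
    rw [hS, h, S0, Int.cast_sum]
    simp only [Int.cast_mul, Int.cast_pow, Int.cast_neg, Int.cast_ofNat, Int.cast_natCast]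
  have eT : T * (-(640320 : ℚ) ^ 3) ^ (p - 1) = (SS p : ℚ) := by
    rw [hT, sum_mul_pow p fun k => 545140134 * (k : ℚ) + 13591409, SS, Int.cast_sum]
    simp only [TT, Int.cast_mul, Int.cast_add, Int.cast_pow, Int.cast_neg, Int.cast_ofNat,
      Int.cast_natCast]
  refine ⟨fun _ => ⟨fun h x y _ hy hxy => dvd_num hp h5 h23 h29 2 _ _ ?_ (c1 h x y hy hxy),
    fun h => dvd_num hp h5 h23 h29 2 _ _ eS (c2 h)⟩, dvd_num hp h5 h23 h29 3 _ _ ?_ c3⟩
  · rw [sub_mul, eS]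
    simp only [Int.cast_sub, Int.cast_mul, Int.cast_pow, Int.cast_neg, Int.cast_ofNat,
      Int.cast_natCast]
  · rw [sub_mul, eT]
    simp only [Int.cast_sub, Int.cast_mul, Int.cast_pow, Int.cast_neg, Int.cast_ofNat,
      Int.cast_natCast]

end Pool.Agent.Results.MP_db9bd2_nt.Supercongruence
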